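import Pool.Agent.W623.SecH.Stm2

/-!
# KTSQ: rational functions with even orders are squares
-/

set_option autoImplicit false

open Polynomial

namespace Pool.Agent.W976.SecH

open Pool.Agent.W623.SecC Pool.Agent.W623.SecH

universe u v

theorem sq_of_even {F : Type u} [Field F] [IsAlgClosed F] :
    ∀ (n : ℕ) (R : F[X]), R.natDegree = n → R ≠ 0 → (∀ α, Even (R.rootMultiplicity α)) →
      ∃ h : F[X], R = h ^ 2 := by
  intro n
  induction n using Nat.strong_induction_on with
  | _ n ih =>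
    intro R hn hR he
    rcases Nat.eq_zero_or_pos n with h0 | h0
    · obtain ⟨c, hc⟩ := Polynomial.natDegree_eq_zero.1 (hn.trans h0)
      obtain ⟨d, hd⟩ := IsAlgClosed.exists_pow_nat_eq c (n := 2) (by norm_num)
      exact ⟨C d, by rw [← hc, ← hd, C_pow]⟩
    · have hdeg : R.degree ≠ 0 := by
        intro h
        have := Polynomial.natDegree_eq_zero_iff_degree_le_zero.2 h.le
        omega
      obtain ⟨β, hβ⟩ := IsAlgClosed.exists_root R hdeg
      have h1 : 0 < R.rootMultiplicity β := (Polynomial.rootMultiplicity_pos hR).2 hβ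
      have h2 : 2 ≤ R.rootMultiplicity β := by
        obtain ⟨r, hr⟩ := he β
        omega
      obtain ⟨S, hS⟩ := (Polynomial.le_rootMultiplicity_iff hR).1 h2
      have hS0 : S ≠ 0 := by
        rintro rfl
        exact hR (by rw [hS, mul_zero])
      have hX0 : (X - C β) ^ 2 ≠ (0 : F[X]) := pow_ne_zero _ (X_sub_C_ne_zero β)
      have h3 : R.natDegree = 2 + S.natDegree := by
        rw [hS, natDegree_mul hX0 hS0, natDegree_pow, natDegree_X_sub_C, mul_one]
      obtain ⟨h, hh⟩ := ih S.natDegree (by omega) S rfl hS0 (by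
        intro α
        have h4 := he α
        have h5 : R.rootMultiplicity α =
            ((X - C β) ^ 2 : F[X]).rootMultiplicity α + S.rootMultiplicity α := by
          conv_lhs => rw [hS]
          exact rootMultiplicity_mul (mul_ne_zero hX0 hS0)
        have h6 : Even (((X - C β) ^ 2 : F[X]).rootMultiplicity α) := by
          rw [sq, rootMultiplicity_mul (mul_ne_zero (X_sub_C_ne_zero β) (X_sub_C_ne_zero β))]
          exact ⟨_, rfl⟩
        rw [h5] at h4
        exact (Nat.even_add.1 h4).1 h6)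
      exact ⟨(X - C β) * h, by rw [hS, hh]; ring⟩

section val

variable {F : Type u} {k : Type v} [Field F] [Field k] (ι : F →+* k) (t : k)
  (V : ValuationSubring k) (hV : ∀ c, ι c ∈ V)

include hV

theorem eval_mem (ht : t ∈ V) (S : F[X]) : S.eval₂ ι t ∈ V := by
  rw [eval₂_eq_sum_range]
  exact V.toSubring.sum_mem fun i _ => V.mul_mem _ _ (hV _) (pow_mem ht _)

theorem val_const {c : F} (hc : c ≠ 0) : V.valuation (ι c) = 1 := by
  have h1 := (V.valuation_le_one_iff _).2 (hV c)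
  have h2 := (V.valuation_le_one_iff _).2 (hV c⁻¹)
  rw [map_inv₀, map_inv₀] at h2
  have h0 : V.valuation (ι c) ≠ 0 := (Valuation.ne_zero_iff _).2 ((map_ne_zero ι).2 hc)
  have h3 := (inv_le_one₀ (zero_lt_iff.2 h0)).1 h2
  exact le_antisymm h1 h3

theorem val_eval {α : F} (ht : t - ι α ∈ V.nonunits) {P : F[X]} (hP : P ≠ 0) :
    V.valuation (P.eval₂ ι t) = V.valuation (t - ι α) ^ (P.rootMultiplicity α) := by
  have hlt : V.valuation (t - ι α) < 1 := ht
  have htV : t ∈ V := by
    have h1 : t - ι α ∈ V := (V.valuation_le_one_iff _).1 hlt.le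
    have h2 := V.add_mem _ _ h1 (hV α)
    rwa [sub_add_cancel] at h2
  obtain ⟨P', hP'⟩ := P.exists_eq_pow_rootMultiplicity_mul_and_not_dvd hP α
  obtain ⟨h1, h2⟩ := hP'
  have h3 : P'.eval α ≠ 0 := fun h => h2 (dvd_iff_isRoot.2 h)
  obtain ⟨S, hS⟩ := P'.X_sub_C_dvd_sub_C_eval (a := α)
  have h4 : P'.eval₂ ι t = ι (P'.eval α) + (t - ι α) * S.eval₂ ι t := by
    have h5 := congrArg (Polynomial.eval₂ ι t) hS
    rw [eval₂_sub, eval₂_C, eval₂_mul, eval₂_sub, eval₂_X, eval₂_C] at h5
    rw [← h5]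
    ring
  have h5 : V.valuation (P'.eval₂ ι t) = 1 := by
    have h6 := val_const ι V hV h3
    have h7 : V.valuation ((t - ι α) * S.eval₂ ι t) < 1 := by
      rw [map_mul]
      have h8 := (V.valuation_le_one_iff _).2 (eval_mem ι t V hV htV S)
      calc _ ≤ V.valuation (t - ι α) * 1 := mul_le_mul_right h8 _
        _ < 1 := by rwa [mul_one]
    rw [h4, Valuation.map_add_eq_of_lt_left, h6]
    rwa [h6]
  conv_lhs => rw [h1]
  rw [eval₂_mul, eval₂_pow, eval₂_sub, eval₂_X, eval₂_C, map_mul, map_pow, h5, mul_one]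

end val

theorem ktsq : KTSQ.{u, v} := by
  intro F k _ _ _ ι t htr P Q hP hQ h
  have h1 : ∀ α, Even ((P * Q).rootMultiplicity α) := by
    intro α
    obtain ⟨V, j, hV, ht, hj, hu⟩ := h α
    have hlt : V.valuation (t - ι α) < 1 := ht
    have h0 : t - ι α ≠ 0 := by
      have := htr (X - C α) (X_sub_C_ne_zero α)
      rwa [eval₂_sub, eval₂_X, eval₂_C] at this
    have hv0 : V.valuation (t - ι α) ≠ 0 := (Valuation.ne_zero_iff _).2 h0
    have h2 := val_eval ι t V hV ht hP
    have h3 := val_eval ι t V hV ht hQ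
    obtain ⟨hu0, hu1, hu2⟩ := hu
    have hu3 : V.valuation (P.eval₂ ι t / Q.eval₂ ι t / (t - ι α) ^ j) = 1 := by
      have h4 := (V.valuation_le_one_iff _).2 hu1
      have h5 := (V.valuation_le_one_iff _).2 hu2
      rw [map_inv₀] at h5
      have h6 : V.valuation (P.eval₂ ι t / Q.eval₂ ι t / (t - ι α) ^ j) ≠ 0 :=
        (Valuation.ne_zero_iff _).2 hu0
      exact le_antisymm h4 ((inv_le_one₀ (zero_lt_iff.2 h6)).1 h5)
    rw [map_div₀, map_div₀, map_zpow₀, h2, h3, ← zpow_natCast, ← zpow_natCast,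
      ← zpow_sub₀ hv0, ← zpow_sub₀ hv0] at hu3
    have h7 := (zpow_eq_one_iff_right₀ zero_le hlt.ne).1 hu3
    rw [rootMultiplicity_mul (mul_ne_zero hP hQ)]
    obtain ⟨i, hi⟩ := hj
    rw [← Int.even_coe_nat]
    push_cast
    exact ⟨i + Q.rootMultiplicity α, by omega⟩
  obtain ⟨g, hg⟩ := sq_of_even _ (P * Q) rfl (mul_ne_zero hP hQ) h1
  refine ⟨g, Q, hQ, ?_⟩
  have h2 : P.eval₂ ι t * Q.eval₂ ι t = g.eval₂ ι t ^ 2 := by
    rw [← eval₂_mul, hg, eval₂_pow]
  have h3 := htr Q hQ
  rw [div_pow, ← h2]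
  field_simp

end Pool.Agent.W976.SecH
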